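import Pool.Agent.W_7742m_h74.Defs
import Pool.Agent.W_7742x_h74.QDef

/-! Definitions for the statements: systems of Satake classes of rank `n` over a number field with
integral characteristic polynomials, whose conjugates are the Satake classes of cusp forms on `GL_n`
or of Maass cusp forms of eigenvalue `1 / 4` (if `n = 2`), or have a Rankin-Selberg `L`-function with
the usual properties. -/

noncomputable section

namespace Pool.Agent.H74V

open Filter Topology ComplexConjugate

/-- A system of Satake classes of rank `n` over the number field `K` with integral characteristic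
polynomials: invertible matrices `A p` over `K` for the primes `p` not dividing the level (only
their characteristic polynomials matter). -/
structure SatakeSystem (K : Type) [Field K] [NumberField K] (n : ℕ) where
  /-- the level -/
  level : ℕ
  level_pos : 0 < level
  /-- the Satake classes -/
  A : ℕ → Matrix (Fin n) (Fin n) K
  det_ne_zero : ∀ p, p.Prime → ¬ p ∣ level → (A p).det ≠ 0
  integral : ∀ p, p.Prime → ¬ p ∣ level → ∀ i, IsIntegral ℤ ((A p).charpoly.coeff i)

namespace SatakeSystem

variable {K : Type} [Field K] [NumberField K] {n : ℕ} (π : SatakeSystem K n)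

/-- The prime `p` does not divide the level. -/
def Good (p : ℕ) : Prop := p.Prime ∧ ¬ p ∣ π.level

/-- The conjugate `σ (A)` is the system of Satake classes of a cusp form on `GL_n`: there is a
nonzero cusp form of level `level` and some character whose eigenvalue under the Hecke operator
`T_{p,k}` is `p ^ (k (n - k) / 2)` times the `k`-th elementary symmetric function of the eigenvalues
of `σ (A p)`, for `1 ≤ k ≤ n` and all `p` not dividing the level. -/
def IsCuspidal (σ : K →+* ℂ) : Prop :=
  GLForm74.IsCuspidalSystem π.level (fun p => (π.A p).charpoly.map σ) n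

/-- The conjugate `σ (A)` is a system of Satake classes of a Maass form: `n = 2`, and there is a
nonzero Maass cusp form of weight `0` and eigenvalue `1 / 4` for `Γ₀(level)` with character `χ`,
`χ(p) = σ (det A p)`, whose eigenvalue under the Hecke operator `T_p` is `σ (tr A p)`, for all `p`
not dividing the level. -/
def IsMaass (σ : K →+* ℂ) : Prop :=
  n = 2 ∧ ∃ χ : DirichletCharacter ℂ π.level,
    (∀ p : ℕ, π.Good p → χ p = σ (π.A p).det) ∧
    Maass74.IsMaassEigensystem π.level χ fun p => σ (π.A p).trace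

/-- Unitarity: the complex conjugate of `σ (tr A p ^ k)` is `σ (tr A p ^ (-k))`. -/
def Unitary (σ : K →+* ℂ) : Prop :=
  ∀ p, π.Good p → ∀ k : ℕ, conj (σ (π.A p ^ k).trace) = σ ((π.A p)⁻¹ ^ k).trace

/-- The coefficient `|σ (tr A p ^ k)|^2 / k` of `p ^ (-ks)` in the logarithm of the (partial)
Rankin-Selberg `L`-function of the conjugate system `σ (A)` and its contragredient; it is `0` if `p`
divides the level. -/
def coeff (σ : K →+* ℂ) (p k : ℕ) : ℝ := by
  classical exact if π.Good p then ‖σ (π.A p ^ k).trace‖ ^ 2 / k else 0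

/-- The series for the logarithm of the Rankin-Selberg `L`-function converges for `s > 1` (here
`k = x.2 + 1`). -/
def Converges (σ : K →+* ℂ) : Prop :=
  ∀ s : ℝ, 1 < s → Summable fun x : Nat.Primes × ℕ =>
    π.coeff σ x.1 (x.2 + 1) / (x.1 : ℝ) ^ ((x.2 + 1) * s)

/-- The Rankin-Selberg `L`-function
`L_σ(s) = exp (∑_p ∑_k |σ (tr A p ^ k)|^2 / (k p ^ (ks)))`. -/
def L (σ : K →+* ℂ) (s : ℂ) : ℂ :=
  Complex.exp (∑' x : Nat.Primes × ℕ, (π.coeff σ x.1 (x.2 + 1) : ℂ) / (x.1 : ℂ) ^ ((x.2 + 1) * s))

/-- The function `g` is analytic for real part `> 0` and equal to `(s - 1) L_σ(s)` for real part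
`> 1`. -/
def Continues (σ : K →+* ℂ) (g : ℂ → ℂ) : Prop :=
  (∀ s : ℂ, 0 < s.re → AnalyticAt ℂ g s) ∧ ∀ s : ℂ, 1 < s.re → g s = (s - 1) * π.L σ s

/-- The conjugate `σ (A)` has the analytic properties of the Satake classes of a unitary cuspidal
automorphic representation of `GL_n` over `ℚ`: it is unitary and its partial Rankin-Selberg
`L`-function converges for real part `> 1` and `(s - 1) L_σ(s)` is analytic for real part `> 0`. -/
def IsRankinSelberg (σ : K →+* ℂ) : Prop :=
  π.Unitary σ ∧ π.Converges σ ∧ ∃ g, π.Continues σ g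

/-- The conjugate `σ (A)` is unitary and `L_σ(s)` is `O (1 / (s - 1))` for `1 < s ≤ 2`. -/
def IsBounded (σ : K →+* ℂ) : Prop :=
  π.Unitary σ ∧ π.Converges σ ∧ ∃ C : ℝ, ∀ s : ℝ, 1 < s → s ≤ 2 → (s - 1) * ‖π.L σ s‖ ≤ C

/-- The series of the `p ^ (-x)` over the primes `p` such that `tr A p = 0` diverges. -/
def Diverges (x : ℝ) : Prop :=
  ¬ Summable fun p : {p : ℕ // π.Good p ∧ (π.A p).trace = 0} => ((p : ℕ) : ℝ) ^ (-x)

/-- The sum of `p ^ (-s)` over the primes with the property `P`. -/
def primeSum (P : ℕ → Prop) (s : ℝ) : ℝ :=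
  ∑' p : {p : ℕ // p.Prime ∧ P p}, ((p : ℕ) : ℝ) ^ (-s)

/-- Three times the density of the primes with `tr A p = 0` plus the density of the primes such that
`tr A p` is a root of unity is at least one (in the sense of lower Dirichlet densities). -/
def ManyUnits : Prop :=
  ∀ ε : ℝ, 0 < ε → ∀ᶠ s in 𝓝[>] (1 : ℝ), (1 - ε) * primeSum (fun _ => True) s ≤
    3 * primeSum (fun p => π.Good p ∧ (π.A p).trace = 0) s +
      primeSum (fun p => π.Good p ∧ ∃ k : ℕ, 0 < k ∧ (π.A p).trace ^ k = 1) s

end SatakeSystem

/-- The point `ρ` is a zero or a pole of the quotient `∏_σ L_σ(s) / ζ(s) ^ d`, `d = [K : ℚ]`; here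
`g σ` is the function `(s - 1) L_σ(s)`. -/
def ZeroOrPole {K : Type} [Field K] [NumberField K] (g : (K →+* ℂ) → ℂ → ℂ) (ρ : ℂ) : Prop :=
  meromorphicOrderAt (fun s => ∏ σ, g σ s / ((s - 1) * riemannZeta s)) ρ ≠ 0

end Pool.Agent.H74V
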