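import Pool.Agent.W_7742v_h74.Tee
import Pool.Agent.W_7742x_h74.QRS
import Pool.Agent.W_7742x_h74.ZPos

/-! Vanishing of Hecke traces: conclusion. -/

set_option autoImplicit false

noncomputable section

namespace Pool.Agent.H74V

open Filter Topology ComplexConjugate
open Pool.Agent.GL74 (WeakRS)
open Pool.Agent.H74E (pk)

namespace SatakeSystem

variable {K : Type} [Field K] [NumberField K] {n : ℕ}

/-- The system in the older sense. -/
def toOld (π : SatakeSystem K n) (hu : ∀ σ, π.Unitary σ) : H74F.SatakeSystem K n where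
  level := π.level
  level_pos := π.level_pos
  A := π.A
  det_ne_zero := π.det_ne_zero
  integral := π.integral
  unitary := fun p hp hN k σ => hu σ p ⟨hp, hN⟩ k

theorem old_T (π : SatakeSystem K n) (hu : ∀ σ, π.Unitary σ) (σ : K →+* ℂ) :
    (π.toOld hu).old.T σ = π.T σ := by
  funext x
  unfold H74E.SatakeSystem.T T coeff H74E.SatakeSystem.t
  by_cases hx : π.Good x.1
  · rw [if_pos hx, if_pos (show (π.toOld hu).old.Good x.1 from hx)]
    have h1 : ((x.2 : ℝ) + 1) ≠ 0 := by positivity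
    push_cast
    field_simp
    rfl
  · rw [if_neg hx, if_neg (show ¬ (π.toOld hu).old.Good x.1 from hx), zero_mul]

/-- Cusp forms on `GL_n`. -/
theorem weakRS_of_isCuspidal (hn : 2 ≤ n) {π : SatakeSystem K n} {σ : K →+* ℂ}
    (h : π.IsCuspidal σ) : WeakRS (π.T σ) := by
  refine (GL74.cuspidal_main hn h).2 _ (fun x hx => ?_) (fun x hx => ?_)
  · unfold T coeff
    rw [if_pos hx]
    have h1 : ((x.2 : ℝ) + 1) ≠ 0 := by positivity
    push_cast
    field_simp
  · unfold T coeff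
    rw [if_neg hx, zero_mul]

theorem old_rankinSelberg {π : SatakeSystem K n} (hu : ∀ σ, π.Unitary σ)
    (hc : ∀ σ, π.Converges σ) {g : (K →+* ℂ) → ℂ → ℂ} (hg : ∀ σ, π.Continues σ (g σ)) :
    (π.toOld hu).RankinSelberg g where
  summable := hc
  analytic := fun σ => (hg σ).1
  eq := fun σ s hs => (hg σ).2 s hs

theorem vanishing {π : SatakeSystem K n} (hn : 2 ≤ n) (h : ∀ σ, π.IsCuspidal σ) :
    π.Diverges (1 / ((n : ℝ) + 1)) ∧ ∀ g : (K →+* ℂ) → ℂ → ℂ, (∀ σ, π.Continues σ (g σ)) →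
      ∀ ρ : ℂ, 0 < ρ.re → ZeroOrPole g ρ → ∀ x : ℝ, x < ρ.re → π.Diverges x := by
  have hu : ∀ σ, π.Unitary σ := fun σ => (GL74.cuspidal_main hn (h σ)).1
  have hw : ∀ σ, WeakRS (π.T σ) := fun σ => weakRS_of_isCuspidal hn (h σ)
  have hc : ∀ σ, π.Converges σ := fun σ s hs =>
    ((hw σ).summable (T_nonneg π σ) hs).congr fun x => (coeff_pk π σ s x).symm
  have hP : (π.toOld hu).old.PosC := GL74.posC_of_weakRS fun σ => by
    rw [old_T]
    exact hw σ
  exact ⟨H74F.SatakeSystem.partA hn hP,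
    fun g hg ρ h1 h2 x h3 => H74F.SatakeSystem.partB (old_rankinSelberg hu hc hg) h1 h2 h3⟩

end SatakeSystem

end Pool.Agent.H74V
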