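import Pool.Agent.W_7742v_h74.Stmt
import Pool.Agent.W_7742e_h74.PartB

/-! The coefficients of the logarithm of the Rankin-Selberg `L`-functions. -/

set_option autoImplicit false

noncomputable section

namespace Pool.Agent.H74V

open Filter Topology ComplexConjugate
open Pool.Agent.H74E (pk)
open Pool.Agent.H74F (pkC)

namespace SatakeSystem

variable {K : Type} [Field K] [NumberField K]

/-- The coefficients of the logarithm. -/
def T {n : ℕ} (π : SatakeSystem K n) (σ : K →+* ℂ) (x : Nat.Primes × ℕ) : ℝ :=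
  π.coeff σ x.1 (x.2 + 1) * (x.2 + 1)

lemma T_nonneg {n : ℕ} (π : SatakeSystem K n) (σ : K →+* ℂ) (x : Nat.Primes × ℕ) :
    0 ≤ π.T σ x := by
  unfold T coeff
  split_ifs <;> positivity

lemma coeff_pkC {n : ℕ} (π : SatakeSystem K n) (σ : K →+* ℂ) (s : ℂ) (x : Nat.Primes × ℕ) :
    (π.coeff σ x.1 (x.2 + 1) : ℂ) / ((x.1 : ℕ) : ℂ) ^ (((x.2 : ℂ) + 1) * s) =
      (π.T σ x : ℂ) * pkC s x := by
  have hp : ((x.1 : ℕ) : ℂ) ≠ 0 := by exact_mod_cast x.1.2.ne_zero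
  have e1 : pkC s x = ((x.2 : ℂ) + 1)⁻¹ * (((x.1 : ℕ) : ℂ) ^ (((x.2 : ℂ) + 1) * s))⁻¹ := by
    unfold pkC
    rw [Complex.cpow_def_of_ne_zero hp, ← Complex.exp_neg, Complex.natCast_log]
    congr 2
    ring
  have hk : ((x.2 : ℂ) + 1) ≠ 0 := by exact_mod_cast Nat.succ_ne_zero x.2
  rw [e1, T]
  push_cast
  rw [div_eq_mul_inv]
  field_simp

lemma coeff_pk {n : ℕ} (π : SatakeSystem K n) (σ : K →+* ℂ) (s : ℝ) (x : Nat.Primes × ℕ) :
    π.coeff σ x.1 (x.2 + 1) / ((x.1 : ℕ) : ℝ) ^ (((x.2 : ℝ) + 1) * s) = π.T σ x * pk s x := by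
  have h1 := coeff_pkC π σ s x
  have h2 : pkC (s : ℂ) x = ((pk s x : ℝ) : ℂ) := by
    unfold pkC pk
    push_cast
    ring_nf
  rw [h2] at h1
  have h3 : ((x.1 : ℕ) : ℂ) ^ (((x.2 : ℂ) + 1) * (s : ℂ)) =
      ((((x.1 : ℕ) : ℝ) ^ (((x.2 : ℝ) + 1) * s) : ℝ) : ℂ) := by
    rw [Complex.ofReal_cpow (by positivity)]
    push_cast
    rfl
  rw [h3] at h1
  exact_mod_cast h1

end SatakeSystem

end Pool.Agent.H74V
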