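import Pool.Agent.W_7742v_h74.Two
import Pool.Agent.W_7742r_h74.RSmain
import Pool.Agent.W_7742r_h74.Eul
import Pool.Agent.W_7742v_h74.Tee

/-! The Rankin-Selberg method for the systems of Satake classes of Maass forms. -/

set_option autoImplicit false

noncomputable section

namespace Pool.Agent.H74V

open Filter Topology ComplexConjugate Pool.Agent.MaassRS74 Pool.Agent.Maass74
open Pool.Agent.H74E (pk)
open Pool.Agent.H74F (pkC summable_mul_pkC series_analytic)

theorem zetaM_pow (N : ℕ) (x : ℝ) : zetaM (N ^ 3) x = zetaM N x := by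
  unfold zetaM
  refine tsum_congr fun k => ?_
  have : k.Coprime (N ^ 3) ↔ k.Coprime N := by
    constructor
    · intro h
      exact Nat.Coprime.coprime_dvd_right (dvd_pow_self N (by norm_num)) h
    · intro h
      exact Nat.Coprime.pow_right 3 h
  simp only [this]

namespace SatakeSystem

variable {K : Type} [Field K] [NumberField K]

/-- The Rankin-Selberg method for Maass forms. -/
theorem maass_rankinSelberg {π : SatakeSystem K 2} {σ : K →+* ℂ} (h : π.IsMaass σ) :
    π.IsRankinSelberg σ := by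
  classical
  have hN : 0 < π.level := π.level_pos
  have : NeZero π.level := ⟨hN.ne'⟩
  have : NeZero (π.level ^ 3) := ⟨pow_ne_zero 3 hN.ne'⟩
  have hMS := h
  obtain ⟨-, χ, hχ, hE⟩ := h
  obtain ⟨G, r, hRS, hr1, hr0, hm⟩ := exists_rs hE
  obtain ⟨g, hg, hgx⟩ := rs_main hRS
  have hgood : ∀ p : ℕ, p.Prime → ¬ p ∣ π.level → π.Good p := fun p h1 h2 => ⟨h1, h2⟩
  have heul := fun (x : ℝ) (hx : 1 < x) => euler (N := π.level) hN (r := r)
    (a := fun p => σ (π.A p).trace) (w := fun p => σ (π.A p).det) hr1 hRS.r_nonneg hRS.r_zero hr0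
    (fun p h1 h2 => by rw [← hχ p ⟨h1, h2⟩]; exact hm p h1 h2)
    (fun x hx => summable_r hRS hx)
    (fun p h1 h2 => (maass_facts hMS ⟨h1, h2⟩).2.1)
    (fun p h1 h2 => (maass_facts hMS ⟨h1, h2⟩).2.2) hx
  -- the coefficients
  have hcoef : ∀ (x : ℝ) (q : Nat.Primes × ℕ), (if (q.1 : ℕ) ∣ π.level then 0 else
      ‖psum (σ (π.A q.1).trace) (σ (π.A q.1).det) (q.2 + 1)‖ ^ 2 / ((q.2 : ℝ) + 1) /
        ((q.1 : ℕ) : ℝ) ^ (((q.2 : ℝ) + 1) * x)) =
      π.coeff σ q.1 (q.2 + 1) / ((q.1 : ℕ) : ℝ) ^ (((q.2 : ℝ) + 1) * x) := by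
    intro x q
    unfold coeff
    by_cases hq : (q.1 : ℕ) ∣ π.level
    · rw [if_pos hq, if_neg (fun h => h.2 hq), zero_div]
    · rw [if_neg hq, if_pos (show π.Good q.1 from ⟨q.1.2, hq⟩), map_trace_pow]
      push_cast
      rfl
  have hconv : π.Converges σ := by
    intro s hs
    refine (heul s hs).1.congr fun q => ?_
    exact hcoef s q
  refine ⟨maass_unitary hMS, hconv, fun s => g s / (r 1 : ℂ), fun s hs => ?_, ?_⟩
  · exact (hg s hs).div analyticAt_const (by exact_mod_cast hr1.ne')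
  -- the identity on the real line
  have hTs : ∀ s : ℝ, 1 < s → Summable fun x => π.T σ x * pk s x := by
    intro s hs
    refine (hconv s hs).congr fun x => ?_
    exact coeff_pk π σ s x
  have hreal : ∀ x : ℝ, 1 < x → g x / (r 1 : ℂ) = ((x : ℂ) - 1) * π.L σ x := by
    intro x hx
    have h1 := (heul x hx).2
    have h2 := hgx x hx
    rw [zetaM_pow, ← h1] at h2
    have h3 : π.L σ x = ((Real.exp (∑' q : Nat.Primes × ℕ,
        π.coeff σ q.1 (q.2 + 1) / ((q.1 : ℕ) : ℝ) ^ (((q.2 : ℝ) + 1) * x)) : ℝ) : ℂ) := by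
      unfold L
      rw [Complex.ofReal_exp, Complex.ofReal_tsum]
      congr 1
      refine tsum_congr fun q => ?_
      rw [Complex.ofReal_div, Complex.ofReal_cpow (by positivity)]
      push_cast
      rfl
    have hr1' : (r 1 : ℂ) ≠ 0 := by exact_mod_cast hr1.ne'
    rw [h2, h3, div_eq_iff hr1']
    simp only [hcoef]
    push_cast
    ring
  -- the identity theorem
  have hL : ∀ s : ℂ, 1 < s.re → AnalyticAt ℂ (fun s => (s - 1) * π.L σ s) s := by
    intro s hs
    have h1 := series_analytic (T_nonneg π σ) hTs s hs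
    have h2 : AnalyticAt ℂ (fun s => (s - 1) * Complex.exp (∑' x, (π.T σ x : ℂ) * pkC s x)) s :=
      (analyticAt_id.sub analyticAt_const).mul h1.cexp
    refine h2.congr (Eventually.of_forall fun z => ?_)
    unfold L
    simp only [coeff_pkC]
  intro s hs
  have hconn : IsPreconnected {z : ℂ | 1 < z.re} := (convex_halfSpace_re_gt 1).isPreconnected
  have hA : AnalyticOnNhd ℂ (fun s => g s / (r 1 : ℂ)) {z : ℂ | 1 < z.re} := fun z hz =>
    (hg z (by have : 1 < z.re := hz; linarith)).div analyticAt_const (by exact_mod_cast hr1.ne')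
  have hB : AnalyticOnNhd ℂ (fun s => (s - 1) * π.L σ s) {z : ℂ | 1 < z.re} := fun z hz =>
    hL z hz
  refine hA.eqOn_of_preconnected_of_frequently_eq hB hconn
    (show (2 : ℂ) ∈ {z : ℂ | 1 < z.re} by simp) ?_ hs
  -- frequently equal near `2`
  have htend : Tendsto (fun x : ℝ => (x : ℂ)) (𝓝[≠] (2 : ℝ)) (𝓝[≠] (2 : ℂ)) := by
    refine tendsto_nhdsWithin_iff.2 ⟨?_, ?_⟩
    · have := Complex.continuous_ofReal.tendsto (2 : ℝ)
      exact this.mono_left nhdsWithin_le_nhds
    · filter_upwards [self_mem_nhdsWithin] with x hx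
      intro h
      apply hx
      have h' : (x : ℂ) = 2 := h
      exact_mod_cast h'
  refine htend.frequently ?_
  have : ∀ᶠ x : ℝ in 𝓝[≠] 2, g x / (r 1 : ℂ) = ((x : ℂ) - 1) * π.L σ x := by
    have h1 : ∀ᶠ x : ℝ in 𝓝[≠] 2, 1 < x :=
      (eventually_gt_nhds (by norm_num : (1 : ℝ) < 2)).filter_mono nhdsWithin_le_nhds
    filter_upwards [h1] with x hx
    exact hreal x hx
  exact this.frequently

end SatakeSystem

end Pool.Agent.H74V
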