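import Pool.Agent.W_7742v_h74.Fin
import Pool.Agent.W_7742m_h74.Thom

/-! Traces which are zero or roots of unity: conclusion. -/

set_option autoImplicit false

noncomputable section

namespace Pool.Agent.H74V

open Filter Topology ComplexConjugate Pool.Agent.Maass74
open Pool.Agent.H74E (pk pk_nonneg pk_eq)

namespace SatakeSystem

variable {K : Type} [Field K] [NumberField K] {n : ℕ} (π : SatakeSystem K n)

lemma L_real (σ : K →+* ℂ) (s : ℝ) : ‖π.L σ s‖ = Real.exp (∑' x : Nat.Primes × ℕ,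
    π.T σ x * pk s x) := by
  have h3 : π.L σ s = ((Real.exp (∑' x : Nat.Primes × ℕ, π.T σ x * pk s x) : ℝ) : ℂ) := by
    unfold L
    rw [Complex.ofReal_exp, Complex.ofReal_tsum]
    congr 1
    refine tsum_congr fun q => ?_
    rw [← coeff_pk, Complex.ofReal_div, Complex.ofReal_cpow (by positivity)]
    push_cast
    rfl
  rw [h3, Complex.norm_real, Real.norm_of_nonneg (Real.exp_pos _).le]

/-- The bound for a conjugate with bounded Rankin-Selberg function. -/
theorem bound_of_isBounded {σ : K →+* ℂ} (h : π.IsBounded σ) :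
    ∃ (n₀ : ℤ) (B : ℝ), n₀ ≠ 0 ∧ ∀ x : ℝ, 1 < x → x ≤ 2 →
      ∀ Q : Finset ℕ, (∀ p ∈ Q, p.Prime ∧ ¬ p ∣ π.level ∧ ¬ (p : ℤ) ∣ n₀) →
      ∑ p ∈ Q, Real.log (1 + ‖σ (π.A p).trace‖ ^ 2 * (p : ℝ) ^ (-x)) ≤ -Real.log (x - 1) + B := by
  classical
  obtain ⟨-, hconv, C, hC⟩ := h
  refine ⟨1, Real.log (|C| + 1), one_ne_zero, fun x hx hx2 Q hQ => ?_⟩
  have hpos : 0 < x - 1 := by linarith
  have hTs : Summable fun q => π.T σ q * pk x q := by
    refine (hconv x hx).congr fun q => ?_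
    exact coeff_pk π σ x q
  have h1 : ∑' q, π.T σ q * pk x q ≤ -Real.log (x - 1) + Real.log (|C| + 1) := by
    have h2 := hC x hx hx2
    rw [L_real] at h2
    have h3 : Real.exp (∑' q, π.T σ q * pk x q) ≤ (|C| + 1) / (x - 1) := by
      rw [le_div_iff₀ hpos, mul_comm]
      linarith [le_abs_self C]
    have h4 := Real.log_le_log (Real.exp_pos _) h3
    rw [Real.log_exp, Real.log_div (by positivity) hpos.ne'] at h4
    linarith
  refine le_trans ?_ h1
  -- the primes in `Q`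
  let e : ℕ → Nat.Primes × ℕ := fun p => if hp : p.Prime then (⟨p, hp⟩, 0)
    else (⟨2, Nat.prime_two⟩, 0)
  have he : ∀ p (hp : p.Prime), e p = (⟨p, hp⟩, 0) := fun p hp => dif_pos hp
  have hinj : Set.InjOn e Q := by
    intro p hp q hq hpq
    rw [he p (hQ p hp).1, he q (hQ q hq).1] at hpq
    have := (Prod.mk.inj hpq).1
    exact congrArg Subtype.val this
  have h5 : ∑ q ∈ Q.image e, π.T σ q * pk x q ≤ ∑' q, π.T σ q * pk x q :=
    hTs.sum_le_tsum (Q.image e) (fun q _ => mul_nonneg (T_nonneg π σ q) (pk_nonneg x q))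
  rw [Finset.sum_image hinj] at h5
  refine le_trans (Finset.sum_le_sum fun p hp => ?_) h5
  have hp' := (hQ p hp).1
  have hg : π.Good p := ⟨hp', (hQ p hp).2.1⟩
  have h6 : π.T σ (e p) = ‖σ (π.A p).trace‖ ^ 2 := by
    rw [he p hp']
    unfold T coeff
    simp [hg]
  have h7 : pk x (e p) = (p : ℝ) ^ (-x) := by
    rw [he p hp', pk_eq]
    simp
  rw [h6, h7]
  have h8 : 0 ≤ ‖σ (π.A p).trace‖ ^ 2 * (p : ℝ) ^ (-x) := by positivity
  have h9 := Real.log_le_sub_one_of_pos (show 0 < 1 + ‖σ (π.A p).trace‖ ^ 2 * (p : ℝ) ^ (-x) by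
    linarith)
  linarith

theorem bound_of_isMaass {σ : K →+* ℂ} (h : π.IsMaass σ) :
    ∃ (n₀ : ℤ) (B : ℝ), n₀ ≠ 0 ∧ ∀ x : ℝ, 1 < x → x ≤ 2 →
      ∀ Q : Finset ℕ, (∀ p ∈ Q, p.Prime ∧ ¬ p ∣ π.level ∧ ¬ (p : ℤ) ∣ n₀) →
      ∑ p ∈ Q, Real.log (1 + ‖σ (π.A p).trace‖ ^ 2 * (p : ℝ) ^ (-x)) ≤ -Real.log (x - 1) + B := by
  have : NeZero π.level := ⟨π.level_pos.ne'⟩
  obtain ⟨-, χ, -, hE⟩ := h
  exact eigensystem_bound hE

theorem unitary_of {σ : K →+* ℂ} (h : π.IsBounded σ ∨ π.IsMaass σ) : π.Unitary σ := by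
  rcases h with h | h
  · exact h.1
  · obtain ⟨rfl, -⟩ := id h
    exact maass_unitary h

theorem manyUnits (h : ∀ σ, π.IsBounded σ ∨ π.IsMaass σ) : π.ManyUnits := by
  intro ε hε
  have hu : ∀ σ, π.Unitary σ := fun σ => π.unitary_of (h σ)
  have hint : ∀ p : ℕ, p.Prime → ¬ p ∣ π.level → IsIntegral ℤ (π.A p).trace := by
    intro p hp hN
    have σ : K →+* ℂ := Classical.choice inferInstance
    apply H74F.isIntegral_of_map σ
    have := H74F.trace_integral σ (π.integral p hp hN) 1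
    rwa [pow_one] at this
  have hint' : ∀ p : ℕ, p.Prime → ¬ p ∣ π.level → IsIntegral ℤ (π.A p)⁻¹.trace := by
    intro p hp hN
    have σ : K →+* ℂ := Classical.choice inferInstance
    apply H74F.isIntegral_of_map σ
    have h1 := hu σ p ⟨hp, hN⟩ 1
    rw [pow_one, pow_one] at h1
    rw [← h1]
    exact ((hint p hp hN).map σ.toIntAlgHom).map (starRingEnd ℂ).toIntAlgHom
  have key := thompson π.level π.level_pos (fun p => (π.A p).trace) (fun p => (π.A p)⁻¹.trace)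
    hint hint' (fun σ p hp hN => by
      have h1 := hu σ p ⟨hp, hN⟩ 1
      rwa [pow_one, pow_one] at h1)
    (fun σ => by
      rcases h σ with h | h
      · exact π.bound_of_isBounded h
      · exact π.bound_of_isMaass h) ε hε
  have e1 : ∀ (P : ℕ → Prop) (s : ℝ), SatakeSystem.primeSum (fun p => π.Good p ∧ P p) s =
      Maass74.primeSum (fun p => ¬ p ∣ π.level ∧ P p) s := by
    intro P s
    unfold SatakeSystem.primeSum Maass74.primeSum
    have : ∀ p : ℕ, (p.Prime ∧ π.Good p ∧ P p) ↔ (p.Prime ∧ ¬ p ∣ π.level ∧ P p) := by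
      intro p
      unfold Good
      tauto
    exact (Equiv.subtypeEquivRight this).tsum_eq
      (fun q : {p : ℕ // p.Prime ∧ ¬ p ∣ π.level ∧ P p} => ((q : ℕ) : ℝ) ^ (-s))
  filter_upwards [key] with s hs
  rw [e1, e1]
  exact hs

end SatakeSystem

end Pool.Agent.H74V
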