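import Pool.Agent.W_7742v_h74.Stmt
import Pool.Agent.W_7742m_h74.Main
import Pool.Agent.W_7742r_h74.ExRS

/-! The case `n = 2`: power sums and unitarity. -/

set_option autoImplicit false

noncomputable section

namespace Pool.Agent.H74V

open Filter Topology ComplexConjugate Pool.Agent.MaassRS74 Pool.Agent.Maass74

section

variable {K : Type} [Field K]

lemma sq_eq (M : Matrix (Fin 2) (Fin 2) K) : M * M = M.trace • M - M.det • 1 := by
  ext i j
  fin_cases i <;> fin_cases j <;>
    simp [Matrix.mul_apply, Fin.sum_univ_two, Matrix.trace_fin_two, Matrix.det_fin_two] <;> ring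

lemma trace_pow_succ (M : Matrix (Fin 2) (Fin 2) K) (k : ℕ) :
    (M ^ (k + 2)).trace = M.trace * (M ^ (k + 1)).trace - M.det * (M ^ k).trace := by
  have h : M ^ (k + 2) = M.trace • M ^ (k + 1) - M.det • M ^ k := by
    rw [pow_add, pow_two, sq_eq, mul_sub, mul_smul_comm, mul_smul_comm, mul_one, ← pow_succ]
  rw [h, Matrix.trace_sub, Matrix.trace_smul, Matrix.trace_smul, smul_eq_mul, smul_eq_mul]

lemma map_trace_pow (σ : K →+* ℂ) (M : Matrix (Fin 2) (Fin 2) K) (k : ℕ) :
    σ (M ^ k).trace = psum (σ M.trace) (σ M.det) k := by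
  induction k using Nat.strong_induction_on with
  | _ k ih =>
    match k with
    | 0 =>
      simp only [pow_zero, psum, Matrix.trace_one, Fintype.card_fin]
      exact map_natCast σ 2
    | 1 => simp [psum]
    | (j + 2) =>
      rw [trace_pow_succ, map_sub, map_mul, map_mul, ih (j + 1) (by omega), ih j (by omega)]
      rfl

lemma trace_inv (M : Matrix (Fin 2) (Fin 2) K) (h : M.det ≠ 0) :
    M⁻¹.trace = M.trace / M.det := by
  rw [Matrix.inv_def, Matrix.trace_smul, Matrix.adjugate_fin_two, smul_eq_mul, Ring.inverse_eq_inv',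
    Matrix.trace_fin_two, Matrix.trace_fin_two]
  simp only [Matrix.of_apply, Matrix.cons_val_zero, Matrix.cons_val_one]
  field_simp
  ring

end

lemma conj_psum (a w : ℂ) (k : ℕ) : conj (psum a w k) = psum (conj a) (conj w) k := by
  induction k using Nat.strong_induction_on with
  | _ k ih =>
    match k with
    | 0 => exact map_ofNat _ 2
    | 1 => simp [psum]
    | (j + 2) =>
      simp only [psum]
      rw [map_sub, map_mul, map_mul, ih (j + 1) (by omega), ih j (by omega)]

namespace SatakeSystem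

variable {K : Type} [Field K] [NumberField K] {π : SatakeSystem K 2} {σ : K →+* ℂ}

/-- The properties of the eigenvalues. -/
lemma maass_facts {p : ℕ} (h : π.IsMaass σ) (hp : π.Good p) :
    (∃ k : ℕ, 0 < k ∧ (π.A p).det ^ k = 1) ∧ ‖σ (π.A p).det‖ = 1 ∧
      σ (π.A p).det * conj (σ (π.A p).trace) = σ (π.A p).trace := by
  have : NeZero π.level := ⟨π.level_pos.ne'⟩
  obtain ⟨-, χ, hχ, f, hf, h0, hT⟩ := h
  have hcop : IsUnit ((p : ℕ) : ZMod π.level) := (ZMod.isUnit_prime_iff_not_dvd hp.1).2 hp.2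
  have h1 : χ p ^ Nat.card (ZMod π.level)ˣ = 1 := by
    obtain ⟨u, hu⟩ := hcop
    rw [← hu, ← map_pow, ← Units.val_pow_eq_pow_val, pow_card_eq_one', Units.val_one, map_one]
  have h1' := h1
  rw [hχ p hp, ← map_pow] at h1
  refine ⟨⟨Nat.card (ZMod π.level)ˣ, Nat.card_pos,
    (map_eq_one_iff _ (RingHom.injective _)).1 h1⟩, ?_, ?_⟩
  · rw [← hχ p hp]
    have h2 : ‖χ p‖ ^ Nat.card (ZMod π.level)ˣ = 1 := by rw [← norm_pow, h1', norm_one]
    exact (pow_eq_one_iff_of_nonneg (norm_nonneg _) Nat.card_pos.ne').1 h2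
  · rw [← hχ p hp]
    exact unitary hf h0 hp.1 hp.2 (hT p hp.1 hp.2)

lemma maass_unitary (h : π.IsMaass σ) : π.Unitary σ := by
  intro p hp k
  obtain ⟨-, hw, hu⟩ := maass_facts h hp
  have hdet : (π.A p).det ≠ 0 := π.det_ne_zero p hp.1 hp.2
  have hσ : σ (π.A p).det ≠ 0 := (map_ne_zero σ).2 hdet
  have h1 : conj (σ (π.A p).det) = (σ (π.A p).det)⁻¹ := by
    rw [Complex.inv_def, Complex.normSq_eq_norm_sq, hw]
    simp
  have h2 : conj (σ (π.A p).trace) = σ (π.A p).trace / σ (π.A p).det := by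
    rw [eq_div_iff hσ, mul_comm]
    exact hu
  rw [map_trace_pow, map_trace_pow, conj_psum, trace_inv _ hdet, Matrix.det_nonsing_inv,
    Ring.inverse_eq_inv', map_div₀, map_inv₀, h1, h2]

end SatakeSystem

end Pool.Agent.H74V
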